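import Pool.Agent.helper95.FI.SpecM

/-! # Row fi:KPR: products over the primes -/

set_option autoImplicit false

namespace Pool.Agent.FI

open Finset

private theorem KPR_cases (p : ℕ) (hp : p.Prime) :
    (p = 2 ∧ gg p = 1 / 2) ∨ (3 ≤ p ∧ gg p = 1 / ((p : ℝ) + 1)) ∨
      (7 ≤ p ∧ gg p = 1 / ((p : ℝ) - 1)) := by
  rcases hp.eq_two_or_odd with h | h
  · left
    subst h
    refine ⟨rfl, ?_⟩
    unfold gg ch8
    norm_num
  · have h2 := hp.two_le
    by_cases h1 : p % 8 = 1 ∨ p % 8 = 7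
    · right
      right
      have h7 : 7 ≤ p := by omega
      refine ⟨h7, ?_⟩
      unfold gg ch8
      rw [if_pos h1]
    · right
      left
      refine ⟨by omega, ?_⟩
      unfold gg ch8
      rw [if_neg h1, if_pos (by omega), sub_neg_eq_add]

/-- the loss at `p` -/
private noncomputable def KPR_a (p : ℕ) : ℝ := if 7 ≤ p then 1 / ((p : ℝ) - 1) ^ 2 else 0

private theorem KPR_a_nonneg (p : ℕ) : 0 ≤ KPR_a p := by
  unfold KPR_a
  split_ifs
  · positivity
  · exact le_rfl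

private theorem KPR_a_le (p : ℕ) : KPR_a p ≤ 1 := by
  unfold KPR_a
  split_ifs with h
  · have h1 : (7 : ℝ) ≤ p := by exact_mod_cast h
    rw [div_le_one (by nlinarith)]
    nlinarith
  · exact zero_le_one

private theorem KPR_ratio (p : ℕ) (hp : p.Prime) :
    1 - KPR_a p ≤ (1 - 1 / (p : ℝ))⁻¹ * (1 - gg p) := by
  have ha := KPR_a_nonneg p
  rcases KPR_cases p hp with ⟨h, hg⟩ | ⟨h, hg⟩ | ⟨h, hg⟩
  · rw [hg, h]
    rw [h] at ha
    norm_num
    exact ha
  · have h1 : (3 : ℝ) ≤ p := by exact_mod_cast h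
    have e : (1 - 1 / (p : ℝ))⁻¹ * (1 - gg p) = 1 + 1 / (((p : ℝ) - 1) * ((p : ℝ) + 1)) := by
      have h2 : (p : ℝ) ≠ 0 := by linarith
      have h3 : (p : ℝ) - 1 ≠ 0 := by linarith
      have h4 : (p : ℝ) + 1 ≠ 0 := by linarith
      have h5 : 1 - 1 / (p : ℝ) = ((p : ℝ) - 1) / p := by field_simp
      rw [hg, h5, inv_div]
      field_simp
      ring
    have h6 : 0 ≤ 1 / (((p : ℝ) - 1) * ((p : ℝ) + 1)) := by
      apply div_nonneg zero_le_one
      nlinarith
    rw [e]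
    linarith
  · have h1 : (7 : ℝ) ≤ p := by exact_mod_cast h
    have h2 : (p : ℝ) ≠ 0 := by linarith
    have h3 : (p : ℝ) - 1 ≠ 0 := by linarith
    have h5 : 1 - 1 / (p : ℝ) = ((p : ℝ) - 1) / p := by field_simp
    have e : (1 - 1 / (p : ℝ))⁻¹ * (1 - gg p) = 1 - 1 / ((p : ℝ) - 1) ^ 2 := by
      rw [hg, h5, inv_div]
      field_simp
      ring
    rw [e]
    unfold KPR_a
    rw [if_pos h]

private theorem KPR_sum (m : ℕ) : ∑ n ∈ range (m + 7), KPR_a n ≤ 1 / 5 - 1 / ((m : ℝ) + 5) := by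
  induction m with
  | zero =>
    have h : ∑ n ∈ range (0 + 7), KPR_a n = 0 := by
      refine Finset.sum_eq_zero fun n hn => ?_
      rw [Finset.mem_range] at hn
      unfold KPR_a
      rw [if_neg (by omega)]
    rw [h]
    norm_num
  | succ m ih =>
    have e : m + 1 + 7 = (m + 7) + 1 := by ring
    rw [e, Finset.sum_range_succ]
    have h1 : KPR_a (m + 7) = 1 / ((m : ℝ) + 6) ^ 2 := by
      unfold KPR_a
      rw [if_pos (by omega)]
      push_cast
      congr 2
      ring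
    have h2 : 1 / ((m : ℝ) + 6) ^ 2 ≤ 1 / ((m : ℝ) + 5) - 1 / ((m : ℝ) + 6) := by
      have h3 : (0 : ℝ) ≤ m := Nat.cast_nonneg m
      have h4 : 1 / ((m : ℝ) + 5) - 1 / ((m : ℝ) + 6) = 1 / (((m : ℝ) + 5) * ((m : ℝ) + 6)) := by
        have h5 : (m : ℝ) + 5 ≠ 0 := by linarith
        have h6 : (m : ℝ) + 6 ≠ 0 := by linarith
        field_simp
        ring
      rw [h4]
      apply one_div_le_one_div_of_le
      · nlinarith
      · nlinarith
    rw [h1]
    have e2 : (((m + 1 : ℕ) : ℝ) + 5) = (m : ℝ) + 6 := by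
      push_cast
      ring
    rw [e2]
    linarith

private theorem KPR_sum_le (N : ℕ) : ∑ p ∈ Nat.primesLE N, KPR_a p ≤ 1 / 5 := by
  have h1 : ∑ p ∈ Nat.primesLE N, KPR_a p ≤ ∑ n ∈ range (N + 7), KPR_a n := by
    refine Finset.sum_le_sum_of_subset_of_nonneg ?_ (fun n _ _ => KPR_a_nonneg n)
    intro p hp
    have := Nat.le_of_mem_primesLE hp
    rw [Finset.mem_range]
    omega
  have h2 := KPR_sum N
  have h3 : 0 ≤ 1 / ((N : ℝ) + 5) := by positivity
  linarith

private theorem KPR_weier (s : Finset ℕ) :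
    (0 ≤ ∏ p ∈ s, (1 - KPR_a p) ∧ ∏ p ∈ s, (1 - KPR_a p) ≤ 1) ∧
      1 - ∑ p ∈ s, KPR_a p ≤ ∏ p ∈ s, (1 - KPR_a p) := by
  induction s using Finset.induction_on with
  | empty => simp
  | insert a s ha ih =>
    rw [Finset.prod_insert ha, Finset.sum_insert ha]
    obtain ⟨⟨h1, h2⟩, h3⟩ := ih
    have h4 := KPR_a_nonneg a
    have h5 := KPR_a_le a
    refine ⟨⟨mul_nonneg (by linarith) h1, ?_⟩, ?_⟩
    · nlinarith
    · nlinarith

private theorem KPR_prod_one_le (s : Finset ℕ) (f : ℕ → ℝ) (hf : ∀ p ∈ s, 1 ≤ f p) :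
    1 ≤ ∏ p ∈ s, f p := by
  induction s using Finset.induction_on with
  | empty => simp
  | insert a s ha ih =>
    rw [Finset.prod_insert ha]
    have h1 := ih fun p hp => hf p (Finset.mem_insert_of_mem hp)
    have h2 := hf a (Finset.mem_insert_self a s)
    nlinarith

theorem KPR : KPR_stmt := by
  intro r
  have hkap : kap r = ∏ p ∈ Nat.primesLE (Zr r), (1 - 1 / (p : ℝ))⁻¹ := by
    unfold kap
    rw [Nat.primesLE_eq_filter_Icc_one]
  have hpr : ∀ p ∈ Nat.primesLE (Zr r), p.Prime := fun p hp => Nat.prime_of_mem_primesLE hp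
  have hp2 : ∀ p : ℕ, p.Prime → (2 : ℝ) ≤ p := fun p hp => by exact_mod_cast hp.two_le
  have hinv : ∀ p : ℕ, p.Prime → 1 ≤ (1 - 1 / (p : ℝ))⁻¹ := by
    intro p hp
    have h2 := hp2 p hp
    have h3 : 0 < 1 / (p : ℝ) := by positivity
    have h4 : 1 / (p : ℝ) ≤ 1 / 2 := one_div_le_one_div_of_le (by norm_num) h2
    rw [one_le_inv₀ (by linarith)]
    linarith
  refine ⟨?_, ?_⟩
  · rw [hkap, ← Finset.prod_mul_distrib]
    have h1 : ∏ p ∈ Nat.primesLE (Zr r), (1 - KPR_a p) ≤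
        ∏ p ∈ Nat.primesLE (Zr r), ((1 - 1 / (p : ℝ))⁻¹ * (1 - gg p)) := by
      refine Finset.prod_le_prod (fun p _ => ?_) (fun p hp => KPR_ratio p (hpr p hp))
      have := KPR_a_le p
      linarith
    have h2 := (KPR_weier (Nat.primesLE (Zr r))).2
    have h3 := KPR_sum_le (Zr r)
    linarith
  · intro D hD
    have hDp : ∀ p ∈ D, p.Prime := fun p hp => hpr p (hD hp)
    have hup : ∀ p : ℕ, p.Prime → (p : ℝ) * gg p ≤ (1 - 1 / (p : ℝ))⁻¹ := by
      intro p hp
      have h2 := hp2 p hp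
      have h0 : (p : ℝ) ≠ 0 := by linarith
      have h5 : 1 - 1 / (p : ℝ) = ((p : ℝ) - 1) / p := by field_simp
      rw [h5, inv_div]
      rcases KPR_cases p hp with ⟨h, hg⟩ | ⟨h, hg⟩ | ⟨h, hg⟩
      · rw [hg, h]
        norm_num
      · rw [hg, mul_one_div]
        apply div_le_div_of_nonneg_left (by linarith) (by linarith) (by linarith)
      · rw [hg, mul_one_div]
    have hlo : ∀ p : ℕ, p.Prime → 1 - 1 / (p : ℝ) ≤ (p : ℝ) * gg p := by
      intro p hp
      have h2 := hp2 p hp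
      have h0 : (p : ℝ) ≠ 0 := by linarith
      have h3 : 0 < 1 / (p : ℝ) := by positivity
      rcases KPR_cases p hp with ⟨h, hg⟩ | ⟨h, hg⟩ | ⟨h, hg⟩
      · rw [hg, h]
        norm_num
      · rw [hg, mul_one_div]
        have h4 : (p : ℝ) + 1 ≠ 0 := by linarith
        have h5 : (p : ℝ) / ((p : ℝ) + 1) = 1 - 1 / ((p : ℝ) + 1) := by field_simp; ring
        rw [h5]
        have h6 : 1 / ((p : ℝ) + 1) ≤ 1 / (p : ℝ) :=
          one_div_le_one_div_of_le (by linarith) (by linarith)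
        linarith
      · rw [hg, mul_one_div]
        have h4 : (1 : ℝ) ≤ (p : ℝ) / ((p : ℝ) - 1) := by
          rw [one_le_div (by linarith)]
          linarith
        linarith
    have hDk : ∏ p ∈ D, (1 - 1 / (p : ℝ))⁻¹ ≤ kap r := by
      rw [hkap, ← Finset.prod_sdiff hD]
      have h1 := KPR_prod_one_le (Nat.primesLE (Zr r) \ D) (fun p => (1 - 1 / (p : ℝ))⁻¹)
        (fun p hp => hinv p (hpr p (Finset.mem_sdiff.1 hp).1))
      have h2 := KPR_prod_one_le D (fun p => (1 - 1 / (p : ℝ))⁻¹) (fun p hp => hinv p (hDp p hp))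
      exact le_mul_of_one_le_left (by linarith) h1
    have hD1 : 0 < ∏ p ∈ D, (1 - 1 / (p : ℝ))⁻¹ :=
      lt_of_lt_of_le one_pos (KPR_prod_one_le D _ fun p hp => hinv p (hDp p hp))
    have hDpos : 0 < ∏ p ∈ D, (p : ℝ) := by
      refine Finset.prod_pos fun p hp => ?_
      have := hp2 p (hDp p hp)
      linarith
    have hgpos : ∀ p : ℕ, p.Prime → 0 ≤ (p : ℝ) * gg p := by
      intro p hp
      have h1 := hlo p hp
      have h2 := hp2 p hp
      have h4 : 1 / (p : ℝ) ≤ 1 / 2 := one_div_le_one_div_of_le (by norm_num) h2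
      linarith
    refine ⟨?_, ?_⟩
    · rw [le_div_iff₀ hDpos, ← Finset.prod_mul_distrib]
      refine le_trans (Finset.prod_le_prod (fun p hp => ?_) (fun p hp => ?_)) hDk
      · rw [mul_comm]
        exact hgpos p (hDp p hp)
      · rw [mul_comm]
        exact hup p (hDp p hp)
    · have h1 : ∏ p ∈ D, (1 - 1 / (p : ℝ)) ≤ ∏ p ∈ D, ((p : ℝ) * gg p) := by
        refine Finset.prod_le_prod (fun p hp => ?_) (fun p hp => hlo p (hDp p hp))
        have h2 := hp2 p (hDp p hp)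
        have h4 : 1 / (p : ℝ) ≤ 1 / 2 := one_div_le_one_div_of_le (by norm_num) h2
        linarith
      refine le_trans ?_ h1
      have h2 : ∏ p ∈ D, (1 - 1 / (p : ℝ)) = 1 / ∏ p ∈ D, (1 - 1 / (p : ℝ))⁻¹ := by
        rw [Finset.prod_inv_distrib, one_div, inv_inv]
      rw [h2]
      exact one_div_le_one_div_of_le hD1 hDk

end Pool.Agent.FI
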